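import Pool.Agent.helper29.NS.SpecC

/-! # Project ns, part C, module CS: construction of the structure `CD` -/

namespace NS

open MeasureTheory Filter Topology Set

theorem CS_bnd (k : ℕ) (B : ℝ) (f : ℝ × ℝ × ℝ → ℝ) (h : Cls k B f) : ∀ z, |f z| ≤ B := by
  cases k with
  | zero => exact h.1
  | succ k => exact h.1

theorem CS_cx {f : ℝ × ℝ × ℝ → ℝ} (hf : ContDiff ℝ 3 f) : ContDiff ℝ 2 (dx f) := by
  unfold dx
  exact (hf.fderiv_right (m := 2) (by norm_num)).clm_apply contDiff_const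

theorem CS_cy {f : ℝ × ℝ × ℝ → ℝ} (hf : ContDiff ℝ 3 f) : ContDiff ℝ 2 (dy f) := by
  unfold dy
  exact (hf.fderiv_right (m := 2) (by norm_num)).clm_apply contDiff_const

theorem CS_sx {f g : ℝ × ℝ × ℝ → ℝ} (hf : ContDiff ℝ 2 f) (hg : ContDiff ℝ 2 g)
    (z : ℝ × ℝ × ℝ) : dx (fun z => f z - g z) z = dx f z - dx g z := by
  unfold dx
  rw [fderiv_fun_sub ((hf.differentiable (by norm_num)) z) ((hg.differentiable (by norm_num)) z)]
  rfl

theorem CS_sy {f g : ℝ × ℝ × ℝ → ℝ} (hf : ContDiff ℝ 2 f) (hg : ContDiff ℝ 2 g)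
    (z : ℝ × ℝ × ℝ) : dy (fun z => f z - g z) z = dy f z - dy g z := by
  unfold dy
  rw [fderiv_fun_sub ((hf.differentiable (by norm_num)) z) ((hg.differentiable (by norm_num)) z)]
  rfl

theorem CS_vb {B : ℝ} {a b : ℝ × ℝ × ℝ → ℝ} (ha : ContDiff ℝ 3 a) (hb : ContDiff ℝ 3 b)
    (ka : Cls 3 B a) (kb : Cls 3 B b) (z : ℝ × ℝ × ℝ) :
    |dx (vort a b) z| ≤ 2 * B ∧ |dy (vort a b) z| ≤ 2 * B := by
  have e1 : vort a b = fun z => dx b z - dy a z := rfl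
  rw [e1, CS_sx (CS_cx hb) (CS_cy ha), CS_sy (CS_cx hb) (CS_cy ha)]
  have kbx : Cls 2 B (dx b) := kb.2.2.2.1
  have kay : Cls 2 B (dy a) := ka.2.2.2.2
  have h1 := CS_bnd _ _ _ (kbx.2.2.2.1 : Cls 1 B (dx (dx b))) z
  have h2 := CS_bnd _ _ _ (kbx.2.2.2.2 : Cls 1 B (dy (dx b))) z
  have h3 := CS_bnd _ _ _ (kay.2.2.2.1 : Cls 1 B (dx (dy a))) z
  have h4 := CS_bnd _ _ _ (kay.2.2.2.2 : Cls 1 B (dy (dy a))) z
  rw [abs_le] at *
  rw [abs_le]
  constructor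
  · constructor <;> linarith [h1.1, h1.2, h3.1, h3.2]
  · constructor <;> linarith [h2.1, h2.2, h4.1, h4.2]

theorem CS (hDE : DE_stmt) (hDT : DT_stmt) (hVE : VE_stmt) (hCR : CR_stmt) (hKF : KF_stmt)
    (hFU : FU_stmt) : CS_stmt := by
  intro Ω ν B R t1 g h a1 b1 p1 a2 b2 p2 hO hC hoc hν hg hh hR1 hR2 hS1 hS2 hp hne
  have c1 : ContDiff ℝ 3 a1 := hCR 3 B a1 hR1.ra
  have c2 : ContDiff ℝ 3 b1 := hCR 3 B b1 hR1.rb
  have c3 : ContDiff ℝ 3 a2 := hCR 3 B a2 hR2.ra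
  have c4 : ContDiff ℝ 3 b2 := hCR 3 B b2 hR2.rb
  have cp1 : ContDiff ℝ 2 p1 := hCR 2 B p1 hR1.rp
  have cp2 : ContDiff ℝ 2 p2 := hCR 2 B p2 hR2.rp
  have ca : ContDiff ℝ 3 (fun z => a1 z - a2 z) := c1.sub c3
  have cb : ContDiff ℝ 3 (fun z => b1 z - b2 z) := c2.sub c4
  have cm : ContDiff ℝ 3 (fun z => (a1 z + a2 z) / 2) := (c1.add c3).div_const 2
  have cn : ContDiff ℝ 3 (fun z => (b1 z + b2 z) / 2) := (c2.add c4).div_const 2
  obtain ⟨ea, eb, da, dm, bc, bd⟩ := hDE Ω ν B g h a1 b1 p1 a2 b2 p2 hO hR1 hR2 hS1 hS2 hp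
    _ _ _ _ rfl rfl rfl rfl
  have tr := hDT Ω ν _ _ _ _ hO ca cb cm cn ea eb da dm
  have hDM : DM Ω ν (fun z => a1 z - a2 z) (fun z => b1 z - b2 z)
    (fun z => (a1 z + a2 z) / 2) (fun z => (b1 z + b2 z) / 2) :=
    ⟨ca, cb, cm, cn, ea, eb, da, dm, tr, bc, bd⟩
  have hcurl : Continuous (curl g h) := by
    have e1 : Continuous (px h) := by
      unfold px
      exact ((hh.continuous_fderiv (by norm_num)).clm_apply continuous_const)
    have e2 : Continuous (py g) := by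
      unfold py
      exact ((hg.continuous_fderiv (by norm_num)).clm_apply continuous_const)
    unfold curl
    exact e1.sub e2
  have hB : 0 ≤ B := (abs_nonneg _).trans (CS_bnd 3 B a1 hR1.ra 0)
  refine ⟨hν, hO, hC, hoc, hcurl, rfl, rfl, rfl, rfl, c1, c2, c3, c4, hDM, ?_, ?_, ?_, ?_, ?_, ?_,
    ?_, ?_⟩
  · intro t q hq
    exact hVE Ω ν g h a1 b1 p1 hO c1 c2 cp1 hg hh hS1 t q hq
  · intro t q hq
    exact hVE Ω ν g h a2 b2 p2 hO c3 c4 cp2 hg hh hS2 t q hq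
  · exact fun t q hq => hS1.dv t (mem_univ t) q hq
  · exact fun t q hq => hS2.dv t (mem_univ t) q hq
  · exact fun t q hq => hS1.bc t (mem_univ t) q hq
  · exact fun t q hq => hS2.bc t (mem_univ t) q hq
  · refine ⟨2 * B, fun z => ?_⟩
    have k1 := CS_bnd 3 B a1 hR1.ra z
    have k2 := CS_bnd 3 B b1 hR1.rb z
    have k3 := CS_bnd 3 B a2 hR2.ra z
    have k4 := CS_bnd 3 B b2 hR2.rb z
    have k5 := CS_vb c1 c2 hR1.ra hR1.rb z
    have k6 := CS_vb c3 c4 hR2.ra hR2.rb z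
    have k7 : |dx (fun z => b1 z - b2 z) z| ≤ 2 * B := by
      rw [CS_sx (c2.of_le (by norm_num)) (c4.of_le (by norm_num))]
      have h1 := CS_bnd 2 B (dx b1) hR1.rb.2.2.2.1 z
      have h2 := CS_bnd 2 B (dx b2) hR2.rb.2.2.2.1 z
      rw [abs_le] at h1 h2 ⊢
      constructor <;> linarith [h1.1, h1.2, h2.1, h2.2]
    exact ⟨by linarith, by linarith, by linarith, by linarith, k5.1, k5.2, k6.1, k6.2, k7⟩
  · intro t ht
    by_contra hcon
    push Not at hcon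
    obtain ⟨q, hq, hqn⟩ := hne
    obtain ⟨hbd, -⟩ := hKF Ω R hO hoc
    have := hFU Ω ν _ _ _ _ t hO hbd hν hDM (fun q hq => by
      by_contra h'
      exact absurd h' (by
        have := hcon q hq
        tauto)) t1 ht q hq
    apply hqn
    exact ⟨sub_eq_zero.mp this.1, sub_eq_zero.mp this.2⟩

end NS
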